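import Pool.Agent.Helper49.QL.Defs
import Pool.Agent.Helper3.CL.SepL

/-!
# QL4: the norm ring is not trivial
-/

set_option autoImplicit false

namespace Pool.Agent.Helper92.QL

open MvPolynomial Pool.Agent.Helper49.QL Pool.Agent.Helper18.CL

/-- the norm form at a scalar -/
theorem nf_scalar {F : Type*} [CommRing F] {l : ℕ} [NeZero l] (a z : F) :
    nf a (fun k : Fin l => if k = 0 then z else 0) = z ^ l := by
  unfold nf
  have h : (Matrix.of fun p q : Fin l => (if p ≤ q then 1 else a) *
      (if q - p = 0 then z else 0)) = Matrix.diagonal (fun _ : Fin l => z) := by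
    ext p q
    rw [Matrix.of_apply]
    by_cases hpq : p = q
    · subst hpq
      rw [Matrix.diagonal_apply_eq, sub_self, if_pos le_rfl, if_pos rfl, one_mul]
    · have h0 : ¬ (q - p = 0) := fun h0 => hpq (sub_eq_zero.1 h0).symm
      rw [Matrix.diagonal_apply_ne _ hpq, if_neg h0, mul_zero]
  rw [h, Matrix.det_diagonal, Finset.prod_const, Finset.card_univ, Fintype.card_fin]

/-- **QL4.** the norm ring is not trivial -/
theorem nring_nontrivial {A : Type} [CommRing A] [IsDomain A] {ι : Type} (l : ι → ℕ)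
    [∀ i, NeZero (l i)] (a b : ι → A) : Nontrivial (NRing l a b) := by
  classical
  have hz : ∀ i, ∃ z : AlgebraicClosure (FractionRing A), z ^ l i =
      algebraMap A (AlgebraicClosure (FractionRing A)) (b i) := fun i =>
    IsAlgClosed.exists_pow_nat_eq _ (Nat.pos_of_ne_zero (NeZero.ne (l i)))
  choose z hz using hz
  set ψ : MvPolynomial (Σ i, Fin (l i)) A →+* AlgebraicClosure (FractionRing A) :=
    eval₂Hom (algebraMap A (AlgebraicClosure (FractionRing A)))
      (fun p => if p.2 = 0 then z p.1 else 0) with hψ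
  apply Ideal.Quotient.nontrivial_iff.2
  intro htop
  have h1 : (Ideal.span (Set.range fun i : ι =>
      (nf (C (a i)) (fun k => X ⟨i, k⟩) - C (b i) : MvPolynomial (Σ i, Fin (l i)) A))) ≤
      RingHom.ker ψ := by
    rw [Ideal.span_le]
    rintro _ ⟨i, rfl⟩
    rw [SetLike.mem_coe, RingHom.mem_ker, map_sub]
    have h2 : ψ (nf (C (a i)) (fun k => X ⟨i, k⟩)) = nf (ψ (C (a i)))
        (fun k => ψ (X ⟨i, k⟩)) := Pool.Agent.Helper3.CL.map_nf ψ _ _
    have h3 : (fun k : Fin (l i) => ψ (X ⟨i, k⟩)) = fun k : Fin (l i) => if k = 0 then z i else 0 := by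
      funext k
      rw [hψ, eval₂Hom_X']
    rw [h2, h3, nf_scalar, hz, hψ, eval₂Hom_C, sub_self]
  rw [htop] at h1
  have h4 := h1 (Submodule.mem_top (x := (1 : MvPolynomial (Σ i, Fin (l i)) A)))
  rw [RingHom.mem_ker, map_one] at h4
  exact one_ne_zero h4

end Pool.Agent.Helper92.QL
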